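import Pool.Agent.Helper70.Riesz.FinishD
import Pool.Agent.Helper67.Riesz.Energy

/-!
# The SCREEN-S finish

The exact statement of `finish` in the skeleton `riesz_SkelS.lean`.
-/

open MeasureTheory Set

namespace Helper23.Riesz

variable {s : ℝ} {d : ℕ}

theorem finish (hd : 2 ≤ d) (hs : -2 < s) (hs0 : s < 0) {Lam : ℝ} (hLam : 0 ≤ Lam)
    (hF : ∀ δ : ℝ, 0 < δ → ∀ M₀ : ℝ, HasUCell s d Lam δ M₀) (ε : ℝ) (hε : 0 < ε) :
    HasCellU s d Lam ε :=
  finish_of_EnId hs0 (fun μ ν _ _ hm r a b => energy_identity hs hs0 μ ν hm r a b) hLam hF ε hε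

end Helper23.Riesz
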