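import Pool.Agent.Helper95.Riesz.SDefs
import Pool.Agent.Helper63.Riesz.InsertA

/-!
# Module FINISH, auxiliary lemmas
-/

set_option autoImplicit false
set_option linter.unusedSectionVars false
open MeasureTheory Set Filter Topology ProbabilityTheory
open scoped ENNReal NNReal

namespace Helper23.Riesz

namespace FinishAux

open InsertAux

variable {s : ℝ} {d : ℕ}

section gen

variable {X : Type*} [PseudoMetricSpace X] [MeasurableSpace X] [OpensMeasurableSpace X]
  [SecondCountableTopology X]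

/-- potential -/
noncomputable def potl (s : ℝ) (τ : Measure X) (x : X) : ℝ := ∫ y, dist x y ^ (-s) ∂τ

lemma potl_sm (s : ℝ) (τ : Measure X) [IsFiniteMeasure τ] : StronglyMeasurable (potl s τ) :=
  (measurable_distpow (X := X) s).stronglyMeasurable.integral_prod_right

lemma potl_norm (hs0 : s < 0) {τ : Measure X} [IsFiniteMeasure τ] {A : Set X} {D : ℝ}
    (hA' : τ Aᶜ = 0) (hD : ∀ x ∈ A, ∀ y ∈ A, dist x y ≤ D) {x : X} (hx : x ∈ A) :
    ‖potl s τ x‖ ≤ D ^ (-s) * τ.real univ := by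
  apply norm_integral_le_of_norm_le_const
  have h1 : ∀ᵐ y ∂τ, y ∈ A := by rw [ae_iff]; exact hA'
  filter_upwards [h1] with y hy
  rw [Real.norm_eq_abs, abs_of_nonneg (Real.rpow_nonneg dist_nonneg _)]
  exact Real.rpow_le_rpow dist_nonneg (hD _ hx _ hy) (by linarith)

lemma potl_int (hs0 : s < 0) {μ τ : Measure X} [IsFiniteMeasure μ] [IsFiniteMeasure τ]
    {A : Set X} {D : ℝ} (hA : μ Aᶜ = 0) (hA' : τ Aᶜ = 0) (hD : ∀ x ∈ A, ∀ y ∈ A, dist x y ≤ D) :
    Integrable (potl s τ) μ := by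
  refine Integrable.of_bound (potl_sm s τ).aestronglyMeasurable (D ^ (-s) * τ.real univ) ?_
  have h1 : ∀ᵐ x ∂μ, x ∈ A := by rw [ae_iff]; exact hA
  filter_upwards [h1] with x hx using potl_norm hs0 hA' hD hx

lemma Im_norm_le' (hs0 : s < 0) {μ τ : Measure X} [IsFiniteMeasure μ] [IsFiniteMeasure τ]
    {A : Set X} {D : ℝ} (hA : μ Aᶜ = 0) (hA' : τ Aᶜ = 0) (hD : ∀ x ∈ A, ∀ y ∈ A, dist x y ≤ D) :
    ‖Im s μ τ‖ ≤ D ^ (-s) * τ.real univ * μ.real univ := by
  apply norm_integral_le_of_norm_le_const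
  have h1 : ∀ᵐ x ∂μ, x ∈ A := by rw [ae_iff]; exact hA
  filter_upwards [h1] with x hx using potl_norm hs0 hA' hD hx

variable {O : Type*} [MeasurableSpace O]

lemma Im_pot_sm' (s : ℝ) {μ : O → Measure X}
    (hμ : ∀ A, MeasurableSet A → Measurable fun o => μ o A) {c : ℝ≥0∞} (hc : c < ∞)
    (hb : ∀ o, μ o univ ≤ c) (τ : Measure X) [IsFiniteMeasure τ] :
    StronglyMeasurable fun o => Im s (μ o) τ := by
  let κ : Kernel O X := ⟨μ, Measure.measurable_of_measurable_coe _ hμ⟩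
  have : IsFiniteKernel κ := ⟨⟨c, hc, hb⟩⟩
  exact StronglyMeasurable.integral_kernel_prod_right (κ := κ)
      (f := fun (_ : O) (x : X) => potl s τ x)
      ((potl_sm s τ).comp_measurable measurable_snd)

/-- the expectation of the mutual energy with a fixed measure -/
lemma Im_mean' (hs0 : s < 0) (P : Measure O) [IsFiniteMeasure P]
    {μ : O → Measure X} {mb : Measure X} [IsFiniteMeasure mb]
    (hμ : ∀ A, MeasurableSet A → Measurable fun o => μ o A) {c : ℝ≥0∞} (hc : c < ∞)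
    (hb : ∀ o, μ o univ ≤ c)
    (hmean : ∀ A, MeasurableSet A → mb A = ∫⁻ o, μ o A ∂P) {τ : Measure X}
    [IsFiniteMeasure τ] {A : Set X} {D : ℝ} (hA : mb Aᶜ = 0) (hA' : τ Aᶜ = 0)
    (hD : ∀ x ∈ A, ∀ y ∈ A, dist x y ≤ D) :
    ∫ o, Im s (μ o) τ ∂P = Im s mb τ := by
  let κ : Kernel O X := ⟨μ, Measure.measurable_of_measurable_coe _ hμ⟩
  have : IsFiniteKernel κ := ⟨⟨c, hc, hb⟩⟩
  have hβ : mb = (P ⊗ₘ κ).snd := by
    ext A hA
    rw [Measure.snd_compProd, Measure.bind_apply hA (Kernel.aemeasurable _), hmean A hA]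
    rfl
  have h1 : Im s mb τ = ∫ x, potl s τ x ∂mb := rfl
  have h2 := potl_int hs0 hA hA' hD
  rw [h1, hβ, Measure.snd, integral_map measurable_snd.aemeasurable
    (potl_sm s τ).aestronglyMeasurable]
  rw [hβ, Measure.snd, integrable_map_measure (potl_sm s τ).aestronglyMeasurable
    measurable_snd.aemeasurable] at h2
  exact (Measure.integral_compProd h2).symm

lemma Im_self_int' (hs0 : s < 0) (P : Measure O) [IsFiniteMeasure P]
    {μ : O → Measure X} (hμ : ∀ A, MeasurableSet A → Measurable fun o => μ o A) {c : ℝ≥0∞}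
    (hc : c < ∞) (hb : ∀ o, μ o univ ≤ c) {A : Set X} {D : ℝ} (hD0 : 0 ≤ D)
    (hA : ∀ o, μ o Aᶜ = 0)
    (hD : ∀ x ∈ A, ∀ y ∈ A, dist x y ≤ D) :
    Integrable (fun o => Im s (μ o) (μ o)) P := by
  refine Integrable.of_bound (stronglyMeasurable_Im hμ hc hb).aestronglyMeasurable
    (D ^ (-s) * c.toReal * c.toReal) (Eventually.of_forall fun o => ?_)
  have : IsFiniteMeasure (μ o) := ⟨(hb o).trans_lt hc⟩
  refine (Im_norm_le' hs0 (hA o) (hA o) hD).trans ?_
  have h1 : (μ o).real univ ≤ c.toReal := ENNReal.toReal_mono hc.ne (hb o)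
  have h2 : (0:ℝ) ≤ D ^ (-s) := Real.rpow_nonneg hD0 _
  have h3 : 0 ≤ (μ o).real univ := measureReal_nonneg
  gcongr

lemma Im_pot_int' (hs0 : s < 0) (P : Measure O) [IsFiniteMeasure P]
    {μ : O → Measure X} (hμ : ∀ A, MeasurableSet A → Measurable fun o => μ o A) {c : ℝ≥0∞}
    (hc : c < ∞) (hb : ∀ o, μ o univ ≤ c) {τ : Measure X} [IsFiniteMeasure τ] {A : Set X} {D : ℝ}
    (hD0 : 0 ≤ D) (hA : ∀ o, μ o Aᶜ = 0) (hA' : τ Aᶜ = 0)
    (hD : ∀ x ∈ A, ∀ y ∈ A, dist x y ≤ D) :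
    Integrable (fun o => Im s (μ o) τ) P := by
  refine Integrable.of_bound (Im_pot_sm' s hμ hc hb τ).aestronglyMeasurable
    (D ^ (-s) * τ.real univ * c.toReal) (Eventually.of_forall fun o => ?_)
  have : IsFiniteMeasure (μ o) := ⟨(hb o).trans_lt hc⟩
  refine (Im_norm_le' hs0 (hA o) hA' hD).trans ?_
  have h1 : (μ o).real univ ≤ c.toReal := ENNReal.toReal_mono hc.ne (hb o)
  have h2 : (0:ℝ) ≤ D ^ (-s) := Real.rpow_nonneg hD0 _
  have h3 : 0 ≤ τ.real univ := measureReal_nonneg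
  gcongr

end gen

/-! ### characteristic functions -/

section chi

variable {V : Type*} [NormedAddCommGroup V] [InnerProductSpace ℝ V]
  [MeasurableSpace V] [BorelSpace V] [SecondCountableTopology V]

lemma chi_int (μ : Measure V) [IsFiniteMeasure μ] (ξ : V) :
    Integrable (fun x => Complex.exp (((-2 * Real.pi * inner ℝ x ξ : ℝ) : ℂ) * Complex.I)) μ := by
  refine Integrable.of_bound ?_ 1 (Eventually.of_forall fun x => ?_)
  · exact (by fun_prop : Continuous fun x : V =>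
      Complex.exp (((-2 * Real.pi * inner ℝ x ξ : ℝ) : ℂ) * Complex.I)).aestronglyMeasurable
  · rw [Complex.norm_exp_ofReal_mul_I]

lemma chi_add (μ ν : Measure V) [IsFiniteMeasure μ] [IsFiniteMeasure ν] (ξ : V) :
    chi (μ + ν) ξ = chi μ ξ + chi ν ξ :=
  integral_add_measure (chi_int μ ξ) (chi_int ν ξ)

lemma chi_smul (μ : Measure V) {c : ℝ} (hc : 0 ≤ c) (ξ : V) :
    chi (ENNReal.ofReal c • μ) ξ = (c : ℂ) * chi μ ξ := by
  unfold chi
  rw [integral_smul_measure, ENNReal.toReal_ofReal hc]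
  simp

end chi

end FinishAux

end Helper23.Riesz
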