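import Pool.Agent.Helper70.Riesz.FinishA

/-!
# Module FINISH, the masses
-/

set_option autoImplicit false
set_option linter.unusedSectionVars false
open MeasureTheory Set Filter Topology ProbabilityTheory
open scoped ENNReal NNReal

namespace Helper23.Riesz

namespace FinishAux

open InsertAux

variable {s : ℝ} {d : ℕ}

lemma mCu : MeasurableSet (cubo (0 : R d) 1) := CoarseAux.measurableSet_cubo _ _

lemma vCu : (volume : Measure (R d)).real (cubo (0 : R d) 1) = 1 := by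
  rw [CoarseAux.volume_real_cubo _ zero_le_one, one_pow]

lemma vCu' : (volume : Measure (R d)) (cubo (0 : R d) 1) = 1 := by
  rw [CoarseAux.volume_cubo]; simp

lemma unifM_one : unifM d 1 = (volume : Measure (R d)).restrict (cubo 0 1) := by
  unfold unifM
  rw [Real.one_rpow, ENNReal.ofReal_one, one_smul]

section mass

variable {M δ : ℝ} {h ψ : R d → ℝ} (hM : 0 ≤ M) (hδ : 0 ≤ δ) (hδ1 : δ ≤ 1)
  (hh : Measurable h) (hψc : Continuous ψ) (hψ : ∀ x, 0 ≤ ψ x ∧ ψ x ≤ 1)
  (hψ0 : ∀ x, x ∉ cubo (0 : R d) 1 → ψ x = 0)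
  (hψv : volume {x : R d | x ∈ cubo (0 : R d) 1 ∧ ψ x < 1} ≤ ENNReal.ofReal δ)
  (hhb : ∀ x ∈ cubo (0 : R d) 1, 1 - δ ≤ h x ∧ h x ≤ 1)

include hM hδ1 hψ hψ0 hhb in
lemma f_nonneg (x : R d) : 0 ≤ M ^ d * h x * ψ x := by
  by_cases hx : x ∈ cubo (0 : R d) 1
  · have h1 := hhb x hx
    have h2 := hψ x
    have h3 : 0 ≤ h x := by linarith
    exact mul_nonneg (mul_nonneg (pow_nonneg hM _) h3) h2.1
  · rw [hψ0 x hx, mul_zero]

include hM hδ1 hψ hψ0 hhb in
lemma f_le (x : R d) : M ^ d * h x * ψ x ≤ (cubo (0 : R d) 1).indicator (fun _ => M ^ d) x := by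
  by_cases hx : x ∈ cubo (0 : R d) 1
  · rw [indicator_of_mem hx]
    have h1 := hhb x hx
    have h2 := hψ x
    have h3 : 0 ≤ h x := by linarith
    have h4 : 0 ≤ M ^ d := pow_nonneg hM _
    calc M ^ d * h x * ψ x ≤ M ^ d * 1 * 1 := by gcongr <;> linarith
      _ = M ^ d := by ring
  · rw [indicator_of_notMem hx, hψ0 x hx, mul_zero]

include hM hδ1 hh hψc hψ hψ0 hhb in
lemma f_int : Integrable (fun x => M ^ d * h x * ψ x) := by
  have h1 : Integrable ((cubo (0 : R d) 1).indicator (fun _ => M ^ d)) := by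
    rw [integrable_indicator_iff mCu]
    exact integrableOn_const (by rw [vCu']; simp)
  refine h1.mono' ?_ (Eventually.of_forall fun x => ?_)
  · exact ((measurable_const.mul hh).mul hψc.measurable).aestronglyMeasurable
  · rw [Real.norm_eq_abs, abs_of_nonneg (f_nonneg hM hδ1 hψ hψ0 hhb x)]
    exact f_le hM hδ1 hψ hψ0 hhb x

include hM hδ hδ1 hh hψc hψ hψ0 hψv hhb in
lemma mass_bounds : 0 ≤ ∫ x, M ^ d * h x * ψ x ∧ ∫ x, M ^ d * h x * ψ x ≤ M ^ d ∧
    M ^ d * (1 - 2 * δ) ≤ ∫ x, M ^ d * h x * ψ x := by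
  have hi := f_int hM hδ1 hh hψc hψ hψ0 hhb
  have hI : ∀ c : ℝ, Integrable ((cubo (0 : R d) 1).indicator (fun _ => c)) := by
    intro c
    rw [integrable_indicator_iff mCu]
    exact integrableOn_const (by rw [vCu']; simp)
  set D : Set (R d) := {x : R d | x ∈ cubo (0 : R d) 1 ∧ ψ x < 1} with hD
  have hDm : MeasurableSet D := mCu.inter (measurableSet_lt hψc.measurable measurable_const)
  have hDI : ∀ c : ℝ, Integrable (D.indicator (fun _ => c)) := by
    intro c
    rw [integrable_indicator_iff hDm]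
    exact integrableOn_const (ne_top_of_le_ne_top ENNReal.ofReal_ne_top hψv)
  have hDv : (volume : Measure (R d)).real D ≤ δ := by
    have := ENNReal.toReal_mono ENNReal.ofReal_ne_top hψv
    rwa [ENNReal.toReal_ofReal hδ] at this
  have hMd : 0 ≤ M ^ d := pow_nonneg hM _
  refine ⟨integral_nonneg (f_nonneg hM hδ1 hψ hψ0 hhb), ?_, ?_⟩
  · have := integral_mono hi (hI (M ^ d)) (f_le hM hδ1 hψ hψ0 hhb)
    rwa [integral_indicator_const _ mCu, vCu, one_smul] at this
  · have h1 : ∀ x, (cubo (0 : R d) 1).indicator (fun _ => M ^ d * (1 - δ)) x -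
        D.indicator (fun _ => M ^ d) x ≤ M ^ d * h x * ψ x := by
      intro x
      by_cases hx : x ∈ cubo (0 : R d) 1
      · by_cases hx2 : ψ x < 1
        · rw [indicator_of_mem hx, indicator_of_mem (show x ∈ D from ⟨hx, hx2⟩)]
          have := f_nonneg hM hδ1 hψ hψ0 hhb x
          nlinarith
        · have h3 : ψ x = 1 := le_antisymm (hψ x).2 (not_lt.1 hx2)
          rw [indicator_of_mem hx, indicator_of_notMem (show x ∉ D from fun h => hx2 h.2), h3]
          have := (hhb x hx).1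
          nlinarith
      · rw [indicator_of_notMem hx, indicator_of_notMem (show x ∉ D from fun h => hx h.1),
          hψ0 x hx]
        simp
    have h2 := integral_mono ((hI (M ^ d * (1 - δ))).sub (hDI (M ^ d))) hi h1
    simp only [Pi.sub_apply] at h2
    rw [integral_sub (hI _) (hDI _), integral_indicator_const _ mCu, vCu, one_smul,
      integral_indicator_const _ hDm, smul_eq_mul] at h2
    nlinarith

include hM hδ1 hh hψc hψ hψ0 hhb in
lemma rps_univ : rps M h ψ univ = ENNReal.ofReal (∫ x, M ^ d * h x * ψ x) := by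
  unfold rps
  rw [withDensity_apply _ MeasurableSet.univ, Measure.restrict_univ,
    ofReal_integral_eq_lintegral_ofReal (f_int hM hδ1 hh hψc hψ hψ0 hhb)
      (Eventually.of_forall (f_nonneg hM hδ1 hψ hψ0 hhb))]

include hψ0 in
lemma rps_compl : rps M h ψ (cubo 0 1)ᶜ = 0 := by
  unfold rps
  rw [withDensity_apply _ mCu.compl]
  have : ∀ x ∈ (cubo (0 : R d) 1)ᶜ, ENNReal.ofReal (M ^ d * h x * ψ x) = 0 := by
    intro x hx
    rw [hψ0 x hx, mul_zero, ENNReal.ofReal_zero]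
  rw [setLIntegral_congr_fun mCu.compl this, lintegral_zero]

end mass

lemma cubo_ball : cubo (0 : R d) 1 ⊆ Metric.closedBall 0 ((d : ℝ) * 1) := by
  intro x hx
  rw [Metric.mem_closedBall]
  refine dist_le_cubo zero_le_one x hx 0 ?_
  intro k
  simp

lemma ball_null {μ : Measure (R d)} (h : μ (cubo 0 1)ᶜ = 0) :
    μ (Metric.closedBall 0 ((d : ℝ) * 1))ᶜ = 0 :=
  measure_mono_null (compl_subset_compl.2 cubo_ball) h

/-- weighted point masses -/
lemma wt_dirac_le {ψ : R d → ℝ} (hψ : ∀ x, 0 ≤ ψ x ∧ ψ x ≤ 1)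
    (hψ0 : ∀ x, x ∉ cubo (0 : R d) 1 → ψ x = 0) {A : Set (R d)} (hA : MeasurableSet A) (y : R d) :
    ENNReal.ofReal (ψ y) * Measure.dirac y A ≤ Measure.dirac y (A ∩ cubo 0 1) := by
  rw [Measure.dirac_apply' _ hA, Measure.dirac_apply' _ (hA.inter mCu)]
  by_cases h1 : y ∈ A
  · by_cases h2 : y ∈ cubo (0 : R d) 1
    · rw [indicator_of_mem h1, indicator_of_mem (show y ∈ A ∩ cubo 0 1 from ⟨h1, h2⟩)]
      simp only [Pi.one_apply, mul_one]
      rw [← ENNReal.ofReal_one]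
      exact ENNReal.ofReal_le_ofReal (hψ y).2
    · rw [hψ0 y h2]
      simp
  · rw [indicator_of_notMem h1]
    simp

/-- fractional point masses -/
lemma frac_dirac_le {ψ : R d → ℝ} (hψc : Continuous ψ) (hψ : ∀ x, 0 ≤ ψ x ∧ ψ x ≤ 1)
    (hψ0 : ∀ x, x ∉ cubo (0 : R d) 1 → ψ x = 0) (y : R d) :
    ENNReal.ofReal (if ψ y < 1 then ψ y else 0) ≤
      Measure.dirac y {x : R d | x ∈ cubo (0 : R d) 1 ∧ ψ x < 1} := by
  have hDm : MeasurableSet {x : R d | x ∈ cubo (0 : R d) 1 ∧ ψ x < 1} :=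
    mCu.inter (measurableSet_lt hψc.measurable measurable_const)
  rw [Measure.dirac_apply' _ hDm]
  split_ifs with h1
  · by_cases h2 : y ∈ cubo (0 : R d) 1
    · rw [indicator_of_mem (show y ∈ {x : R d | x ∈ cubo (0 : R d) 1 ∧ ψ x < 1} from ⟨h2, h1⟩)]
      simp only [Pi.one_apply]
      rw [← ENNReal.ofReal_one]
      exact ENNReal.ofReal_le_ofReal (hψ y).2
    · rw [hψ0 y h2]
      simp
  · simp

/-- first moment from the second moment -/
lemma lintegral_abs_le {O : Type*} [MeasurableSpace O] (P : Measure O) [IsProbabilityMeasure P]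
    {q : O → ℝ} {β κ : ℝ} (hβ : 0 ≤ β) (hκ : 0 < κ)
    (h : ∫⁻ o, ENNReal.ofReal (q o ^ 2) ∂P ≤ ENNReal.ofReal (κ ^ 2)) :
    ∫⁻ o, ENNReal.ofReal (β + |q o|) ∂P ≤ ENNReal.ofReal (β + κ) := by
  have h1 : ∀ o, ENNReal.ofReal (β + |q o|) ≤ ENNReal.ofReal (β + κ / 2) +
      ENNReal.ofReal (1 / (2 * κ)) * ENNReal.ofReal (q o ^ 2) := by
    intro o
    rw [← ENNReal.ofReal_mul (by positivity), ← ENNReal.ofReal_add (by positivity) (by positivity)]
    apply ENNReal.ofReal_le_ofReal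
    have h2 : |q o| ≤ κ / 2 + 1 / (2 * κ) * q o ^ 2 := by
      have h3 : 0 ≤ (|q o| - κ) ^ 2 / (2 * κ) := by positivity
      have h4 : (|q o| - κ) ^ 2 / (2 * κ) = κ / 2 + 1 / (2 * κ) * q o ^ 2 - |q o| := by
        rw [← sq_abs (q o)]
        field_simp
        ring
      linarith
    linarith
  calc ∫⁻ o, ENNReal.ofReal (β + |q o|) ∂P
      ≤ ∫⁻ o, (ENNReal.ofReal (β + κ / 2) +
      ENNReal.ofReal (1 / (2 * κ)) * ENNReal.ofReal (q o ^ 2)) ∂P := lintegral_mono h1
    _ = ENNReal.ofReal (β + κ / 2) + ENNReal.ofReal (1 / (2 * κ)) *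
        ∫⁻ o, ENNReal.ofReal (q o ^ 2) ∂P := by
      rw [lintegral_add_left measurable_const, lintegral_const, measure_univ, mul_one,
        lintegral_const_mul' _ _ ENNReal.ofReal_ne_top]
    _ ≤ ENNReal.ofReal (β + κ / 2) + ENNReal.ofReal (1 / (2 * κ)) * ENNReal.ofReal (κ ^ 2) := by
      gcongr
    _ = ENNReal.ofReal (β + κ) := by
      rw [← ENNReal.ofReal_mul (by positivity), ← ENNReal.ofReal_add (by positivity) (by positivity)]
      congr 1
      field_simp
      ring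

/-- the bad event has small probability -/
lemma bad_le {O : Type*} [MeasurableSpace O] (P : Measure O)
    {q : O → ℝ} (hq : Measurable q) {β x : ℝ} (hβ : 0 < β)
    (h : ∫⁻ o, ENNReal.ofReal (q o ^ 2) ∂P ≤ ENNReal.ofReal (x * β ^ 2)) :
    P {o | q o ≤ β}ᶜ ≤ ENNReal.ofReal x := by
  have h1 : {o | q o ≤ β}ᶜ ⊆ {o | ENNReal.ofReal (β ^ 2) ≤ ENNReal.ofReal (q o ^ 2)} := by
    intro o ho
    rw [mem_compl_iff, mem_ofPred_eq, not_le] at ho
    rw [mem_ofPred_eq]
    apply ENNReal.ofReal_le_ofReal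
    nlinarith
  have h2 := meas_ge_le_lintegral_div (μ := P) (f := fun o => ENNReal.ofReal (q o ^ 2))
    ((hq.pow_const 2).ennreal_ofReal.aemeasurable) (ε := ENNReal.ofReal (β ^ 2))
    (by simp; positivity) ENNReal.ofReal_ne_top
  refine (measure_mono h1).trans (h2.trans ?_)
  calc (∫⁻ o, ENNReal.ofReal (q o ^ 2) ∂P) / ENNReal.ofReal (β ^ 2)
      ≤ ENNReal.ofReal (x * β ^ 2) / ENNReal.ofReal (β ^ 2) := by gcongr
    _ = ENNReal.ofReal x := by
      rw [← ENNReal.ofReal_div_of_pos (by positivity)]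
      congr 1
      field_simp

end FinishAux

end Helper23.Riesz
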