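import Pool.Agent.Helper70.Riesz.FinishB

/-!
# Module FINISH: the cell in unit coordinates from a random unit cell
-/

set_option autoImplicit false
set_option linter.unusedSectionVars false
open MeasureTheory Set Filter Topology ProbabilityTheory
open scoped ENNReal NNReal

namespace Helper23.Riesz

namespace FinishAux

open InsertAux

variable {s : ℝ} {d : ℕ}

/-- the energy identity -/
def EnId (s : ℝ) (d : ℕ) : Prop := ∀ (μ ν : Measure (R d)), IsFiniteMeasure μ →
    IsFiniteMeasure ν → μ univ = ν univ → ∀ r : ℝ, μ (Metric.closedBall 0 r)ᶜ = 0 →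
    ν (Metric.closedBall 0 r)ᶜ = 0 →
    0 ≤ 2 * Im s μ ν - Im s μ μ - Im s ν ν ∧
      ENNReal.ofReal (2 * Im s μ ν - Im s μ μ - Im s ν ν) = ENNReal.ofReal (ca (-s)) *
        ∫⁻ t in Ioi (0:ℝ), wt (-s) t * ∫⁻ ξ : R d, ENNReal.ofReal (gam t ξ) *
          ENNReal.ofReal (‖chi μ ξ - chi ν ξ‖ ^ 2)

theorem cellU_of_ucell (hs0 : s < 0) (hE : EnId s d) {Lam : ℝ} (hLam : 0 ≤ Lam)
    {ε : ℝ} (hε : 0 < ε) {η : ℝ} (hη : 0 < η) (hη1 : η ≤ 1 / 2) (hη2 : η ≤ ε / (8 * (1 + Lam)))
    (hF : HasUCell s d Lam (η ^ 4) (max (1 / ε) 1)) : HasCellU s d Lam ε := by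
  classical
  obtain ⟨M, n, O, _, P, Y, h, ψ, hM, hP, hY, hh, hψc, hψ, hψ0, hψv, hhb, hmean, hq, hen⟩ := hF
  have hM1 : 1 ≤ M := (le_max_right _ _).trans hM
  have hMε : 1 / ε ≤ M := (le_max_left _ _).trans hM
  have hM0 : 0 < M := by linarith
  have hMd : 0 < M ^ d := pow_pos hM0 _
  have hδ0 : (0:ℝ) ≤ η ^ 4 := by positivity
  have hδ1 : η ^ 4 ≤ 1 := pow_le_one₀ hη.le (by linarith)
  -- numerical facts
  have hη8 : η ≤ ε / 8 := by
    refine hη2.trans ?_
    rw [div_le_div_iff₀ (by positivity) (by norm_num)]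
    nlinarith
  have hηL : Lam * η ≤ ε / 8 := by
    have h1 : η * (8 * (1 + Lam)) ≤ ε := by
      rwa [le_div_iff₀ (by positivity)] at hη2
    nlinarith
  have hη_sq : η ^ 2 ≤ η / 2 := by nlinarith
  have hη_4 : η ^ 4 ≤ η / 8 := by
    have h1 : η ^ 4 = η ^ 2 * η ^ 2 := by ring
    have h2 : η ^ 2 * η ^ 2 ≤ (η / 2) * (1 / 4) := by
      apply mul_le_mul hη_sq (by nlinarith) (by positivity) (by positivity)
    linarith
  have hp0 : 3 / 4 ≤ 1 - η ^ 2 := by nlinarith
  obtain ⟨hm0, hm1, hm2⟩ := mass_bounds hM0.le hδ0 hδ1 hh hψc hψ hψ0 hψv hhb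
  set m : ℝ := ∫ x, M ^ d * h x * ψ x with hm
  set β : ℝ := η * M ^ d with hβ
  have hβ0 : 0 < β := by positivity
  set q : O → ℝ := fun o => qf M h ψ (Y o) with hqdef
  have hqm : Measurable q := by
    rw [hqdef]
    unfold qf
    exact (Finset.measurable_sum _ fun i _ => hψc.measurable.comp (hY i)).sub_const _
  have hqo : ∀ o, q o = ∑ i, ψ (Y o i) - m := fun o => rfl
  set G : Set O := {o | q o ≤ β} with hG
  have hGm : MeasurableSet G := measurableSet_le hqm measurable_const
  have hq2 : ∫⁻ o, ENNReal.ofReal (q o ^ 2) ∂P ≤ ENNReal.ofReal ((η ^ 2 * M ^ d) ^ 2) := by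
    refine hq.trans (le_of_eq ?_)
    congr 1
    rw [show 2 * d = d * 2 by ring, pow_mul]; ring
  have hbad : P Gᶜ ≤ ENNReal.ofReal (η ^ 2) := by
    apply bad_le P hqm hβ0
    refine hq2.trans (le_of_eq ?_)
    congr 1
    rw [hβ]; ring
  have habs : ∫⁻ o, ENNReal.ofReal (β + |q o|) ∂P ≤ ENNReal.ofReal (β + η ^ 2 * M ^ d) :=
    lintegral_abs_le P hβ0.le (by positivity) hq2
  -- the conditional probability
  set p : ℝ := P.real G with hp
  have hPG : P G = ENNReal.ofReal p := by
    rw [hp, Measure.real, ENNReal.ofReal_toReal (measure_ne_top _ _)]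
  have hp1 : 1 - η ^ 2 ≤ p := by
    have h1 : P.real Gᶜ ≤ η ^ 2 := by
      have := ENNReal.toReal_mono ENNReal.ofReal_ne_top hbad
      rwa [ENNReal.toReal_ofReal (by positivity)] at this
    have h2 : P.real Gᶜ = 1 - p := by
      rw [hp, probReal_compl_eq_one_sub hGm]
    linarith
  have hp2 : 0 < p := by linarith
  have hple : p ≤ 1 := by rw [hp]; exact measureReal_le_one
  set c : ℝ≥0∞ := ENNReal.ofReal p⁻¹ with hc
  have hcp : c * P G = 1 := by
    rw [hc, hPG, ← ENNReal.ofReal_mul (by positivity), inv_mul_cancel₀ hp2.ne',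
      ENNReal.ofReal_one]
  set P' : Measure O := c • P.restrict G with hP'
  have hP'prob : IsProbabilityMeasure P' := by
    constructor
    rw [hP', Measure.smul_apply, Measure.restrict_apply MeasurableSet.univ, univ_inter,
      smul_eq_mul, hcp]
  have haeG : ∀ᵐ o ∂P', o ∈ G := by
    rw [hP']
    exact Measure.ae_smul_measure (ae_restrict_mem hGm) _
  have hlP : ∀ f : O → ℝ≥0∞, ∫⁻ o, f o ∂P' = c * ∫⁻ o in G, f o ∂P := by
    intro f
    rw [hP', lintegral_smul_measure, smul_eq_mul]
  -- the cell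
  set w : O → Fin n → ℝ := fun o i => if o ∈ G then ψ (Y o i) else 0 with hw
  set r : O → ℝ := fun o => if o ∈ G then β - q o else m + β with hr
  have hwm : ∀ i, Measurable fun o => w o i := fun i =>
    Measurable.ite hGm (hψc.measurable.comp (hY i)) measurable_const
  have hrm : Measurable r := Measurable.ite hGm (measurable_const.sub hqm) measurable_const
  have hw01 : ∀ o i, 0 ≤ w o i ∧ w o i ≤ 1 := by
    intro o i
    simp only [hw]
    split_ifs
    · exact hψ _
    · norm_num
  have hr0 : ∀ o, 0 ≤ r o := by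
    intro o
    simp only [hr]
    split_ifs with ho
    · have : q o ≤ β := ho
      linarith
    · linarith
  have hwY : ∀ o i, w o i ≠ 0 → Y o i ∈ cubo (0 : R d) 1 := by
    intro o i hne
    by_contra hcon
    apply hne
    simp only [hw]
    split_ifs
    · exact hψ0 _ hcon
    · rfl
  have hsum : ∀ o, ∑ i, w o i + r o = m + β := by
    intro o
    simp only [hw, hr]
    split_ifs with ho
    · rw [hqo]; ring
    · simp
  set μ : O → Measure (R d) := fun o => muM 1 (Y o) (w o) (r o) with hμ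
  have hμm : ∀ A, MeasurableSet A → Measurable fun o => μ o A :=
    measurable_muM hY hwm hrm
  have hμm' : Measurable μ := Measure.measurable_of_measurable_coe _ hμm
  have hμu : ∀ o, μ o univ = ENNReal.ofReal (m + β) := by
    intro o
    rw [hμ]
    simp only
    rw [muM_univ zero_lt_one _ (fun i => (hw01 o i).1) (hr0 o), hsum]
  have hμf : ∀ o, IsFiniteMeasure (μ o) := fun o => ⟨by rw [hμu]; exact ENNReal.ofReal_lt_top⟩
  have hμc : ∀ o, μ o (cubo 0 1)ᶜ = 0 := fun o => muM_compl (hwY o)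
  set mbar : Measure (R d) := P'.bind μ with hmb
  have hmbA : ∀ A, MeasurableSet A → mbar A = ∫⁻ o, μ o A ∂P' := fun A hA =>
    Measure.bind_apply hA hμm'.aemeasurable
  have hmbu : mbar univ = ENNReal.ofReal (m + β) := by
    rw [hmbA _ MeasurableSet.univ]
    simp only [hμu]
    rw [lintegral_const, measure_univ, mul_one]
  have hmbf : IsFiniteMeasure mbar := ⟨by rw [hmbu]; exact ENNReal.ofReal_lt_top⟩
  have hmbc : mbar (cubo 0 1)ᶜ = 0 := by
    rw [hmbA _ mCu.compl]
    simp only [hμc]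
    rw [lintegral_zero]
  -- the reference measure
  set ρ : Measure (R d) := rps M h ψ + ENNReal.ofReal β • unifM d 1 with hρ
  have hrpsf : IsFiniteMeasure (rps M h ψ) :=
    ⟨by rw [rps_univ hM0.le hδ1 hh hψc hψ hψ0 hhb]; exact ENNReal.ofReal_lt_top⟩
  have hUf : IsFiniteMeasure (unifM d 1) := ⟨by rw [unifM_univ zero_lt_one]; simp⟩
  have hUf2 : ∀ x : ℝ, IsFiniteMeasure (ENNReal.ofReal x • unifM d 1) := fun x =>
    ⟨by rw [Measure.smul_apply, unifM_univ zero_lt_one]; simp⟩
  have hρf1 := hUf2 β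
  have hρf : IsFiniteMeasure ρ := by rw [hρ]; infer_instance
  have hρu : ρ univ = ENNReal.ofReal (m + β) := by
    rw [hρ, Measure.add_apply, rps_univ hM0.le hδ1 hh hψc hψ hψ0 hhb, Measure.smul_apply,
      unifM_univ zero_lt_one, smul_eq_mul, mul_one, ← ENNReal.ofReal_add hm0 hβ0.le]
  have hρc : ρ (cubo 0 1)ᶜ = 0 := by
    rw [hρ, Measure.add_apply, rps_compl hψ0, Measure.smul_apply, unifM_compl]
    simp
  -- Fourier transforms
  have hchi : ∀ o ∈ G, ∀ ζ, chi (μ o) ζ - chi ρ ζ = tauHat M h ψ (Y o) ζ := by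
    intro o ho ζ
    have h1 : μ o = wcf ψ (Y o) + ENNReal.ofReal (β - q o) • unifM d 1 := by
      simp only [hμ, hw, hr, muM, wcf, if_pos ho]
    have hwf : IsFiniteMeasure (wcf ψ (Y o)) := by
      constructor
      refine lt_of_le_of_lt ?_ (hμf o).measure_univ_lt_top
      rw [h1, Measure.add_apply]
      exact le_self_add
    have hf2 := hUf2 (β - q o)
    have hle : 0 ≤ β - q o := by
      have : q o ≤ β := ho
      linarith
    rw [h1, hρ, chi_add, chi_add, chi_smul _ hle, chi_smul _ hβ0.le, unifM_one]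
    unfold tauHat
    have : (qf M h ψ (Y o) : ℂ) = (q o : ℂ) := rfl
    rw [this]
    push_cast
    ring
  have hDo : ∀ o, 0 ≤ 2 * Im s (μ o) ρ - Im s (μ o) (μ o) - Im s ρ ρ ∧
      ENNReal.ofReal (2 * Im s (μ o) ρ - Im s (μ o) (μ o) - Im s ρ ρ) =
      ENNReal.ofReal (ca (-s)) * ∫⁻ t in Ioi (0:ℝ), wt (-s) t * ∫⁻ ξ : R d,
        ENNReal.ofReal (gam t ξ) * ENNReal.ofReal (‖chi (μ o) ξ - chi ρ ξ‖ ^ 2) := fun o =>
    hE (μ o) ρ (hμf o) hρf (by rw [hμu, hρu]) _ (ball_null (hμc o)) (ball_null hρc)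
  have hDmb := (hE mbar ρ hmbf hρf (by rw [hmbu, hρu]) _ (ball_null hmbc) (ball_null hρc)).1
  refine ⟨M, n, O, inferInstance, P', Y, w, r, m + β, mbar, hMε, hP'prob, hY, hwm, hrm, hw01,
    hr0, hwY, hsum, ?_, hmbA, ?_, ?_, ?_⟩
  · -- the total mass
    rw [abs_le]
    constructor <;> nlinarith
  · -- domination of the mean
    rw [Measure.le_iff]
    intro A hA
    have h1 : ∀ o ∈ G, μ o A ≤ (∑ i, Measure.dirac (Y o i)) (A ∩ cubo 0 1) +
        ENNReal.ofReal (β + |q o|) * volume (A ∩ cubo 0 1) := by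
      intro o ho
      rw [hμ]
      simp only
      rw [muM_apply, unifM_one, Measure.restrict_apply hA, Measure.finsetSum_apply]
      apply add_le_add
      · apply Finset.sum_le_sum
        intro i _
        simp only [hw, if_pos ho]
        exact wt_dirac_le hψ hψ0 hA _
      · gcongr
        simp only [hr, if_pos ho]
        have := neg_abs_le (q o)
        linarith
    have h2 : ∫⁻ o in G, μ o A ∂P ≤ ENNReal.ofReal (M ^ d) * volume (A ∩ cubo 0 1) +
        ENNReal.ofReal (β + η ^ 2 * M ^ d) * volume (A ∩ cubo 0 1) := by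
      calc ∫⁻ o in G, μ o A ∂P ≤ ∫⁻ o in G, ((∑ i, Measure.dirac (Y o i)) (A ∩ cubo 0 1) +
          ENNReal.ofReal (β + |q o|) * volume (A ∩ cubo 0 1)) ∂P :=
            setLIntegral_mono' hGm h1
        _ ≤ ∫⁻ o, ((∑ i, Measure.dirac (Y o i)) (A ∩ cubo 0 1) +
          ENNReal.ofReal (β + |q o|) * volume (A ∩ cubo 0 1)) ∂P := setLIntegral_le_lintegral _ _
        _ = ∫⁻ o, (∑ i, Measure.dirac (Y o i)) (A ∩ cubo 0 1) ∂P +
            (∫⁻ o, ENNReal.ofReal (β + |q o|) ∂P) * volume (A ∩ cubo 0 1) := by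
          rw [lintegral_add_right, lintegral_mul_const]
          · exact (measurable_const.add hqm.abs).ennreal_ofReal
          · exact (measurable_const.add hqm.abs).ennreal_ofReal.mul_const _
        _ ≤ _ := by
          apply add_le_add
          · rw [hmean _ inter_subset_right (hA.inter mCu)]
            calc ∫⁻ x in A ∩ cubo 0 1, ENNReal.ofReal (M ^ d * h x)
                ≤ ∫⁻ _x in A ∩ cubo 0 1, ENNReal.ofReal (M ^ d) := by
                  apply setLIntegral_mono' (hA.inter mCu)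
                  intro x hx
                  apply ENNReal.ofReal_le_ofReal
                  have := (hhb x hx.2).2
                  nlinarith
              _ = _ := setLIntegral_const _ _
          · gcongr
    rw [hmbA A hA, hlP, Measure.smul_apply, Measure.restrict_apply hA, smul_eq_mul]
    calc c * ∫⁻ o in G, μ o A ∂P ≤ c * (ENNReal.ofReal (M ^ d) * volume (A ∩ cubo 0 1) +
        ENNReal.ofReal (β + η ^ 2 * M ^ d) * volume (A ∩ cubo 0 1)) := by gcongr
      _ = ENNReal.ofReal (p⁻¹ * (M ^ d + (β + η ^ 2 * M ^ d))) * volume (A ∩ cubo 0 1) := by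
        rw [← add_mul, ← mul_assoc, ← ENNReal.ofReal_add (by positivity) (by positivity), hc,
          ← ENNReal.ofReal_mul (by positivity)]
      _ ≤ _ := by
        gcongr ENNReal.ofReal ?_ * _
        rw [inv_mul_le_iff₀ hp2]
        have h3 : 1 + η + η ^ 2 ≤ p * (1 + ε) := by nlinarith
        rw [hβ]
        nlinarith
  · -- the fractional mass
    set g : O → ℝ := fun o => (∑ i, if w o i < 1 then w o i else 0) + r o with hg
    have hg0 : ∀ o, 0 ≤ g o := by
      intro o
      refine add_nonneg (Finset.sum_nonneg fun i _ => ?_) (hr0 o)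
      split_ifs
      · exact (hw01 o i).1
      · exact le_rfl
    have hgm : Measurable g := by
      refine Measurable.add (Finset.measurable_sum _ fun i _ => ?_) hrm
      exact Measurable.ite (measurableSet_lt (hwm i) measurable_const) (hwm i) measurable_const
    set D : Set (R d) := {x : R d | x ∈ cubo (0 : R d) 1 ∧ ψ x < 1} with hD
    have hDm : MeasurableSet D := mCu.inter (measurableSet_lt hψc.measurable measurable_const)
    have hDs : D ⊆ cubo 0 1 := fun x hx => hx.1
    have h1 : ∀ o ∈ G, ENNReal.ofReal (g o) ≤ (∑ i, Measure.dirac (Y o i)) D +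
        ENNReal.ofReal (β + |q o|) := by
      intro o ho
      simp only [hg]
      rw [ENNReal.ofReal_add _ (hr0 o), ENNReal.ofReal_sum_of_nonneg, Measure.finsetSum_apply]
      · apply add_le_add
        · apply Finset.sum_le_sum
          intro i _
          simp only [hw, if_pos ho]
          exact frac_dirac_le hψc hψ hψ0 _
        · apply ENNReal.ofReal_le_ofReal
          simp only [hr, if_pos ho]
          have := neg_abs_le (q o)
          linarith
      · intro i _
        split_ifs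
        · exact (hw01 o i).1
        · exact le_rfl
      · refine Finset.sum_nonneg fun i _ => ?_
        split_ifs
        · exact (hw01 o i).1
        · exact le_rfl
    have h2 : ∫⁻ o, ENNReal.ofReal (g o) ∂P' ≤ ENNReal.ofReal (ε * M ^ d) := by
      rw [hlP]
      calc c * ∫⁻ o in G, ENNReal.ofReal (g o) ∂P ≤ c * ∫⁻ o in G,
          ((∑ i, Measure.dirac (Y o i)) D + ENNReal.ofReal (β + |q o|)) ∂P := by
            gcongr c * ?_
            exact setLIntegral_mono' hGm h1
        _ ≤ c * ∫⁻ o, ((∑ i, Measure.dirac (Y o i)) D + ENNReal.ofReal (β + |q o|)) ∂P := by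
            gcongr c * ?_
            exact setLIntegral_le_lintegral _ _
        _ = c * (∫⁻ o, (∑ i, Measure.dirac (Y o i)) D ∂P +
            ∫⁻ o, ENNReal.ofReal (β + |q o|) ∂P) := by
          rw [lintegral_add_right]
          exact (measurable_const.add hqm.abs).ennreal_ofReal
        _ ≤ c * (ENNReal.ofReal (M ^ d * η ^ 4) + ENNReal.ofReal (β + η ^ 2 * M ^ d)) := by
          gcongr
          rw [hmean D hDs hDm]
          calc ∫⁻ x in D, ENNReal.ofReal (M ^ d * h x)
              ≤ ∫⁻ _x in D, ENNReal.ofReal (M ^ d) := by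
                apply setLIntegral_mono' hDm
                intro x hx
                apply ENNReal.ofReal_le_ofReal
                have := (hhb x hx.1).2
                nlinarith
            _ = ENNReal.ofReal (M ^ d) * volume D := setLIntegral_const _ _
            _ ≤ ENNReal.ofReal (M ^ d) * ENNReal.ofReal (η ^ 4) := by gcongr
            _ = _ := by rw [← ENNReal.ofReal_mul hMd.le]
        _ = ENNReal.ofReal (p⁻¹ * (M ^ d * η ^ 4 + (β + η ^ 2 * M ^ d))) := by
          rw [← ENNReal.ofReal_add (by positivity) (by positivity), hc,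
            ← ENNReal.ofReal_mul (by positivity)]
        _ ≤ _ := by
          apply ENNReal.ofReal_le_ofReal
          rw [inv_mul_le_iff₀ hp2]
          have h3 : η ^ 4 + η + η ^ 2 ≤ p * ε := by nlinarith
          rw [hβ]
          nlinarith
    rw [integral_eq_lintegral_of_nonneg_ae (Eventually.of_forall hg0) hgm.aestronglyMeasurable]
    have := ENNReal.toReal_mono ENNReal.ofReal_ne_top h2
    rwa [ENNReal.toReal_ofReal (by positivity)] at this
  · -- the energy
    have hct : ENNReal.ofReal (m + β) < ∞ := ENNReal.ofReal_lt_top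
    have hb : ∀ o, μ o univ ≤ ENNReal.ofReal (m + β) := fun o => (hμu o).le
    have hD1 : ∀ x ∈ cubo (0 : R d) 1, ∀ y ∈ cubo (0 : R d) 1, dist x y ≤ (d : ℝ) * 1 :=
      dist_le_cubo zero_le_one
    have i1 : Integrable (fun o => Im s (μ o) ρ) P' :=
      Im_pot_int' hs0 P' hμm hct hb (by positivity) hμc hρc hD1
    have i2 : Integrable (fun o => Im s (μ o) (μ o)) P' :=
      Im_self_int' hs0 P' hμm hct hb (by positivity) hμc hD1
    have e1 : ∫ o, Im s (μ o) ρ ∂P' = Im s mbar ρ :=
      Im_mean' hs0 P' hμm hct hb hmbA hmbc hρc hD1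
    have e2 : ∫ o, (2 * Im s (μ o) ρ - Im s (μ o) (μ o) - Im s ρ ρ) ∂P' =
        2 * Im s mbar ρ - ∫ o, Im s (μ o) (μ o) ∂P' - Im s ρ ρ := by
      have a1 : Integrable (fun o => 2 * Im s (μ o) ρ - Im s (μ o) (μ o)) P' :=
        (i1.const_mul 2).sub i2
      have a2 : ∫ o, (2 * Im s (μ o) ρ - Im s (μ o) (μ o) - Im s ρ ρ) ∂P' =
          ∫ o, (2 * Im s (μ o) ρ - Im s (μ o) (μ o)) ∂P' - ∫ _o, Im s ρ ρ ∂P' :=
        integral_sub a1 (integrable_const _)
      have a3 : ∫ o, (2 * Im s (μ o) ρ - Im s (μ o) (μ o)) ∂P' =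
          ∫ o, 2 * Im s (μ o) ρ ∂P' - ∫ o, Im s (μ o) (μ o) ∂P' :=
        integral_sub (i1.const_mul 2) i2
      rw [a2, a3, integral_const_mul, e1, integral_const]
      simp
    have h1 : ∫⁻ o, ENNReal.ofReal (2 * Im s (μ o) ρ - Im s (μ o) (μ o) - Im s ρ ρ) ∂P' ≤
        ENNReal.ofReal (p⁻¹ * ((Lam + η ^ 4) * M ^ (d + s))) := by
      rw [hlP]
      have h3 : ∫⁻ o in G, ENNReal.ofReal (2 * Im s (μ o) ρ - Im s (μ o) (μ o) - Im s ρ ρ) ∂P =
          ∫⁻ o in G, ENNReal.ofReal (ca (-s)) * (∫⁻ t in Ioi (0:ℝ), wt (-s) t * ∫⁻ ζ : R d,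
            ENNReal.ofReal (gam t ζ) * ENNReal.ofReal (‖tauHat M h ψ (Y o) ζ‖ ^ 2)) ∂P := by
        apply setLIntegral_congr_fun hGm
        intro o ho
        simp only
        rw [(hDo o).2]
        simp only [hchi o ho]
      rw [h3, lintegral_const_mul' _ _ ENNReal.ofReal_ne_top, hc,
        ENNReal.ofReal_mul (by positivity)]
      gcongr
      refine le_trans ?_ hen
      gcongr
      exact Measure.restrict_le_self
    have h2 : ∫ o, (2 * Im s (μ o) ρ - Im s (μ o) (μ o) - Im s ρ ρ) ∂P' ≤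
        p⁻¹ * ((Lam + η ^ 4) * M ^ (d + s)) := by
      rw [integral_eq_lintegral_of_nonneg_ae (Eventually.of_forall fun o => (hDo o).1)
        (((i1.const_mul 2).sub i2).sub (integrable_const _)).aestronglyMeasurable]
      have := ENNReal.toReal_mono ENNReal.ofReal_ne_top h1
      rwa [ENNReal.toReal_ofReal (by positivity)] at this
    rw [e2] at h2
    have h3 : p⁻¹ * ((Lam + η ^ 4) * M ^ ((d:ℝ) + s)) ≤ (Lam + ε) * M ^ ((d:ℝ) + s) := by
      rw [← mul_assoc]
      gcongr
      rw [inv_mul_le_iff₀ hp2]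
      nlinarith
    linarith

end FinishAux

end Helper23.Riesz
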