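import Pool.Agent.Helper70.Riesz.FinishC

/-!
# Module FINISH, modulo the energy identity
-/

set_option autoImplicit false
open MeasureTheory Set Filter Topology
open scoped ENNReal NNReal

namespace Helper23.Riesz

variable {s : ℝ} {d : ℕ}

theorem finish_of_EnId (hs0 : s < 0) (hE : FinishAux.EnId s d) {Lam : ℝ} (hLam : 0 ≤ Lam)
    (hF : ∀ δ : ℝ, 0 < δ → ∀ M₀ : ℝ, HasUCell s d Lam δ M₀) (ε : ℝ) (hε : 0 < ε) :
    HasCellU s d Lam ε := by
  have h1 : 0 < ε / (8 * (1 + Lam)) := by positivity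
  have h2 : 0 < min (1 / 2 : ℝ) (ε / (8 * (1 + Lam))) := lt_min (by norm_num) h1
  exact FinishAux.cellU_of_ucell hs0 hE hLam hε h2 (min_le_left _ _) (min_le_right _ _)
    (hF _ (by positivity) _)

end Helper23.Riesz
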